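import Pool.Agent.T6.H75.DV.Main

set_option autoImplicit false

/-!
# The Devron property of the three-dimensional pentagram map (MP_d88dfe_an, Q1)

The conjecture is true: if the faces of a `2n`-periodic polygon `A` in projective 3-space pass
alternately through two points and `B = F^{n-3}(A)` is defined, then the odd-indexed vertices of
`B` are coplanar, and so are the even-indexed ones. This holds over every field and for every
polygon for which the iterates are defined.
-/

namespace Pool.Agent.Results.MP_d88dfe_an.Devron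

open Module Pool.Agent.T6.H75.DV
open scoped LinearAlgebra.Projectivization

variable {K : Type*} [Field K]

/-- The span of `A (i-1)` and `A (i+1)`: the line through these two points if they are distinct
(then its dimension as a subspace of `K^4` is `2`). -/
def lineAt (A : ℤ → ℙ K (Fin 4 → K)) (i : ℤ) : Submodule K (Fin 4 → K) :=
  (A (i - 1)).submodule ⊔ (A (i + 1)).submodule

/-- The span of `A (i-2)`, `A i` and `A (i+2)`: the plane through these three points if they are
not collinear (then its dimension as a subspace of `K^4` is `3`). -/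
def planeAt (A : ℤ → ℙ K (Fin 4 → K)) (i : ℤ) : Submodule K (Fin 4 → K) :=
  (A (i - 2)).submodule ⊔ (A i).submodule ⊔ (A (i + 2)).submodule

/-- The face `Π_i`: the span of the three consecutive vertices `A (i-1)`, `A i`, `A (i+1)`. -/
def faceAt (A : ℤ → ℙ K (Fin 4 → K)) (i : ℤ) : Submodule K (Fin 4 → K) :=
  (A (i - 1)).submodule ⊔ (A i).submodule ⊔ (A (i + 1)).submodule

/-- `F(A)` is defined and `B = F(A)`: for every `i` the points `A (i-1)`, `A (i+1)` determine a
line, the points `A (i-2)`, `A i`, `A (i+2)` determine a plane, and the line and the plane meet in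
exactly one point, which is `B i`. -/
def IsF (A B : ℤ → ℙ K (Fin 4 → K)) : Prop :=
  ∀ i, finrank K (lineAt A i) = 2 ∧ finrank K (planeAt A i) = 3 ∧
    lineAt A i ⊓ planeAt A i = (B i).submodule

/-- `F^k(A)` is defined (all the iterates `F^j(A)`, `j ≤ k`, are) and `B = F^k(A)`. -/
def IsIterate (k : ℕ) (A B : ℤ → ℙ K (Fin 4 → K)) : Prop :=
  ∃ C : ℕ → ℤ → ℙ K (Fin 4 → K), C 0 = A ∧ (∀ j, j < k → IsF (C j) (C (j + 1))) ∧ C k = B

lemma ind_two {x y : Fin 4 → K}
    (h : finrank K (K ∙ x ⊔ K ∙ y : Submodule K (Fin 4 → K)) = 2) (s t : K)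
    (hst : s • x + t • y = 0) : s = 0 ∧ t = 0 := by
  have hli : LinearIndependent K ![x, y] := by
    rw [linearIndependent_iff_card_eq_finrank_span, Set.finrank]
    have : Submodule.span K (Set.range ![x, y]) = K ∙ x ⊔ K ∙ y := by
      rw [← Submodule.span_union]
      congr 1
      ext z
      simp [eq_comm]
    rw [this, h]
    simp
  rw [Fintype.linearIndependent_iff] at hli
  have := hli ![s, t] (by
    rw [Fin.sum_univ_two]
    simpa using hst)
  exact ⟨this 0, this 1⟩

lemma ind_three {x y z : Fin 4 → K}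
    (h : finrank K (K ∙ x ⊔ K ∙ y ⊔ K ∙ z : Submodule K (Fin 4 → K)) = 3) (s t u : K)
    (hst : s • x + t • y + u • z = 0) : s = 0 ∧ t = 0 ∧ u = 0 := by
  have hli : LinearIndependent K ![x, y, z] := by
    rw [linearIndependent_iff_card_eq_finrank_span, Set.finrank]
    have : Submodule.span K (Set.range ![x, y, z]) = K ∙ x ⊔ K ∙ y ⊔ K ∙ z := by
      rw [← Submodule.span_union, ← Submodule.span_union]
      congr 1
      ext w
      simp [eq_comm]
    rw [this, h]
    simp
  rw [Fintype.linearIndependent_iff] at hli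
  have := hli ![s, t, u] (by
    rw [Fin.sum_univ_three]
    simpa using hst)
  exact ⟨this 0, this 1, this 2⟩

lemma mem_sup3 {x y z w : Fin 4 → K}
    (h : w ∈ (K ∙ x ⊔ K ∙ y ⊔ K ∙ z : Submodule K (Fin 4 → K))) :
    ∃ s t u : K, s • x + t • y + u • z = w := by
  obtain ⟨p, hp, q, hq, hpq⟩ := Submodule.mem_sup.mp h
  obtain ⟨r, hr, s, hs, hrs⟩ := Submodule.mem_sup.mp hp
  obtain ⟨s1, hs1⟩ := Submodule.mem_span_singleton.mp hr
  obtain ⟨s2, hs2⟩ := Submodule.mem_span_singleton.mp hs
  obtain ⟨s3, hs3⟩ := Submodule.mem_span_singleton.mp hq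
  exact ⟨s1, s2, s3, by rw [hs1, hs2, hs3, hrs, hpq]⟩

lemma mem_sup2 {x y w : Fin 4 → K}
    (h : w ∈ (K ∙ x ⊔ K ∙ y : Submodule K (Fin 4 → K))) :
    ∃ s t : K, s • x + t • y = w := by
  obtain ⟨p, hp, q, hq, hpq⟩ := Submodule.mem_sup.mp h
  obtain ⟨s1, hs1⟩ := Submodule.mem_span_singleton.mp hp
  obtain ⟨s3, hs3⟩ := Submodule.mem_span_singleton.mp hq
  exact ⟨s1, s3, by rw [hs1, hs3, hpq]⟩

/-- from the projective definition to lifts -/
lemma exists_step {A B : ℤ → ℙ K (Fin 4 → K)} (h : IsF A B) :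
    ∃ a b c d e : ℤ → K, Step (fun i => (A i).rep) (fun i => (B i).rep) a b c d e := by
  have hl : ∀ i, lineAt A i = K ∙ (A (i - 1)).rep ⊔ K ∙ (A (i + 1)).rep := fun i => by
    rw [lineAt, Projectivization.submodule_eq, Projectivization.submodule_eq]
  have hp : ∀ i, planeAt A i = K ∙ (A (i - 2)).rep ⊔ K ∙ (A i).rep ⊔ K ∙ (A (i + 2)).rep :=
    fun i => by
      rw [planeAt, Projectivization.submodule_eq, Projectivization.submodule_eq,
        Projectivization.submodule_eq]
  have i2 : ∀ (i : ℤ) (x y : K), x • (A (i - 1)).rep + y • (A (i + 1)).rep = 0 → x = 0 ∧ y = 0 := by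
    intro i x y hxy
    have := (h i).1
    rw [hl] at this
    exact ind_two this x y hxy
  have i3 : ∀ (i : ℤ) (x y z : K), x • (A (i - 2)).rep + y • (A i).rep + z • (A (i + 2)).rep = 0 →
      x = 0 ∧ y = 0 ∧ z = 0 := by
    intro i x y z hxy
    have := (h i).2.1
    rw [hp] at this
    exact ind_three this x y z hxy
  have hmem : ∀ i, (B i).rep ∈ lineAt A i ⊓ planeAt A i := by
    intro i
    rw [(h i).2.2, Projectivization.submodule_eq]
    exact Submodule.mem_span_singleton_self _
  have h1 : ∀ i, ∃ s t : K, s • (A (i - 1)).rep + t • (A (i + 1)).rep = (B i).rep := by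
    intro i
    have := (hmem i).1
    rw [hl] at this
    exact mem_sup2 this
  have h2 : ∀ i, ∃ s t u : K, s • (A (i - 2)).rep + t • (A i).rep + u • (A (i + 2)).rep
      = - (B i).rep := by
    intro i
    have := Submodule.neg_mem _ (hmem i).2
    rw [hp] at this
    exact mem_sup3 this
  choose b d hbd using h1
  choose a c e hace using h2
  refine ⟨a, b, c, d, e, ⟨i3, i2, hbd, hace, ?_, ?_, ?_⟩⟩
  · intro i x0 x1 x2 x3 x4 hx
    have m1 : x1 • (A (i - 1)).rep + x3 • (A (i + 1)).rep ∈ lineAt A i := by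
      rw [hl]
      exact Submodule.add_mem_sup (Submodule.smul_mem _ _ (Submodule.mem_span_singleton_self _))
        (Submodule.smul_mem _ _ (Submodule.mem_span_singleton_self _))
    have m2 : x1 • (A (i - 1)).rep + x3 • (A (i + 1)).rep ∈ planeAt A i := by
      have : x1 • (A (i - 1)).rep + x3 • (A (i + 1)).rep =
          -(x0 • (A (i - 2)).rep + x2 • (A i).rep + x4 • (A (i + 2)).rep) := by
        rw [eq_neg_iff_add_eq_zero, ← hx]
        abel
      rw [this, hp]
      refine Submodule.neg_mem _ ?_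
      exact Submodule.add_mem_sup (Submodule.add_mem_sup
        (Submodule.smul_mem _ _ (Submodule.mem_span_singleton_self _))
        (Submodule.smul_mem _ _ (Submodule.mem_span_singleton_self _)))
        (Submodule.smul_mem _ _ (Submodule.mem_span_singleton_self _))
    have m3 : x1 • (A (i - 1)).rep + x3 • (A (i + 1)).rep ∈ (B i).submodule := by
      rw [← (h i).2.2]
      exact ⟨m1, m2⟩
    rw [Projectivization.submodule_eq] at m3
    obtain ⟨t, ht⟩ := Submodule.mem_span_singleton.mp m3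
    have e1 := i2 i (x1 - t * b i) (x3 - t * d i) (by
      have : (x1 - t * b i) • (A (i - 1)).rep + (x3 - t * d i) • (A (i + 1)).rep =
          (x1 • (A (i - 1)).rep + x3 • (A (i + 1)).rep)
            - t • (b i • (A (i - 1)).rep + d i • (A (i + 1)).rep) := by
        rw [sub_smul, sub_smul, smul_add, smul_smul, smul_smul]
        abel
      rw [this, hbd, ht, sub_self])
    have e2 := i3 i (x0 - t * a i) (x2 - t * c i) (x4 - t * e i) (by
      have : (x0 - t * a i) • (A (i - 2)).rep + (x2 - t * c i) • (A i).rep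
          + (x4 - t * e i) • (A (i + 2)).rep =
          (x0 • (A (i - 2)).rep + x1 • (A (i - 1)).rep + x2 • (A i).rep + x3 • (A (i + 1)).rep
            + x4 • (A (i + 2)).rep) - (x1 • (A (i - 1)).rep + x3 • (A (i + 1)).rep)
            - t • (a i • (A (i - 2)).rep + c i • (A i).rep + e i • (A (i + 2)).rep) := by
        rw [sub_smul, sub_smul, sub_smul, smul_add, smul_add, smul_smul, smul_smul, smul_smul]
        abel
      rw [this, hx, hace, ← ht]
      simp)
    exact ⟨t, sub_eq_zero.mp e2.1, sub_eq_zero.mp e1.1, sub_eq_zero.mp e2.2.1,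
      sub_eq_zero.mp e1.2, sub_eq_zero.mp e2.2.2⟩
  · intro i φ f0 f1 f2 f3 f4
    have hsup : lineAt A i ⊔ planeAt A i = ⊤ := by
      apply Submodule.eq_top_of_finrank_eq
      have h3 := Submodule.finrank_sup_add_finrank_inf_eq (lineAt A i) (planeAt A i)
      rw [(h i).1, (h i).2.1, (h i).2.2, Projectivization.finrank_submodule] at h3
      rw [Module.finrank_fin_fun]
      omega
    have hle : lineAt A i ⊔ planeAt A i ≤ LinearMap.ker φ := by
      rw [hl, hp]
      refine sup_le (sup_le ?_ ?_) (sup_le (sup_le ?_ ?_) ?_)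
      all_goals
        rw [Submodule.span_singleton_le_iff_mem, LinearMap.mem_ker]
        assumption
    rw [hsup, top_le_iff, LinearMap.ker_eq_top] at hle
    exact hle
  · intro i
    exact (B i).rep_nonzero

lemma step_per {A B : ℤ → Fin 4 → K} {a b c d e : ℤ → K} (h : Step A B a b c d e) {p : ℤ}
    (hA : ∀ i, A (i + p) = A i) (hB : ∀ i, B (i + p) = B i) (i : ℤ) :
    a (i + p) = a i ∧ b (i + p) = b i ∧ c (i + p) = c i ∧ d (i + p) = d i ∧
      e (i + p) = e i := by
  have h1 := h.hB (i + p)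
  have h2 := h.hB' (i + p)
  rw [show i + p - 1 = i - 1 + p by ring, show i + p + 1 = i + 1 + p by ring, hA, hA, hB,
    ← h.hB i] at h1
  rw [show i + p - 2 = i - 2 + p by ring, show i + p + 2 = i + 2 + p by ring, hA, hA, hA, hB,
    ← h.hB' i] at h2
  have e1 := h.ind2 i (b (i + p) - b i) (d (i + p) - d i) (by
    rw [sub_smul, sub_smul, ← sub_eq_zero.mpr h1]
    abel)
  have e2 := h.ind3 i (a (i + p) - a i) (c (i + p) - c i) (e (i + p) - e i) (by
    rw [sub_smul, sub_smul, sub_smul, ← sub_eq_zero.mpr h2]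
    abel)
  exact ⟨sub_eq_zero.mp e2.1, sub_eq_zero.mp e1.1, sub_eq_zero.mp e2.2.1, sub_eq_zero.mp e1.2,
    sub_eq_zero.mp e2.2.2⟩

open Classical in
/-- a choice of coefficients depending only on the vectors -/
noncomputable def c3 (x y z w : Fin 4 → K) : K × K × K :=
  if h : ∃ p : K × K × K, p.1 • x + p.2.1 • y + p.2.2 • z = w then h.choose else 0

lemma c3_spec {x y z w : Fin 4 → K} (h : ∃ s t u : K, s • x + t • y + u • z = w) :
    (c3 x y z w).1 • x + (c3 x y z w).2.1 • y + (c3 x y z w).2.2 • z = w := by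
  have h' : ∃ p : K × K × K, p.1 • x + p.2.1 • y + p.2.2 • z = w := by
    obtain ⟨s, t, u, hs⟩ := h
    exact ⟨(s, t, u), hs⟩
  rw [c3, dif_pos h']
  exact h'.choose_spec

/-- the initial condition on lifts -/
lemma init_of_faces {A B : ℤ → Fin 4 → K} {a b c d e : ℤ → K} (h : Step A B a b c d e) {n : ℕ}
    (hA : ∀ i, A (i + 2 * n) = A i) (σ : ℤ) (E : Fin 4 → K) (hE : E ≠ 0)
    (hface : ∀ m, (2 : ℤ) ∣ m - (σ + 1) → ∃ s t u : K, s • A (m - 1) + t • A m + u • A (m + 1) = E) :
    Init n a b c d e σ := by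
  let q : ℤ → K × K × K := fun m => c3 (A (m - 1)) (A m) (A (m + 1)) E
  have hq : ∀ m, (2 : ℤ) ∣ m - (σ + 1) →
      (q m).1 • A (m - 1) + (q m).2.1 • A m + (q m).2.2 • A (m + 1) = E :=
    fun m hm => c3_spec (hface m hm)
  have hqp : ∀ m, q (m + 2 * n) = q m := by
    intro m
    simp only [q]
    rw [show m + 2 * (n : ℤ) - 1 = m - 1 + 2 * n by ring,
      show m + 2 * (n : ℤ) + 1 = m + 1 + 2 * n by ring, hA, hA, hA]
  have ht : ∀ i, ∃ t : K, (2 : ℤ) ∣ i - σ → - (q (i - 1)).1 = t * a i ∧
      - (q (i - 1)).2.1 = t * b i ∧ (q (i + 1)).1 - (q (i - 1)).2.2 = t * c i ∧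
      (q (i + 1)).2.1 = t * d i ∧ (q (i + 1)).2.2 = t * e i := by
    intro i
    by_cases hi : (2 : ℤ) ∣ i - σ
    · have r1 := hq (i - 1) (by omega)
      have r2 := hq (i + 1) (by omega)
      rw [show i - 1 - 1 = i - 2 by ring, show i - 1 + 1 = i by ring] at r1
      rw [show i + 1 - 1 = i by ring, show i + 1 + 1 = i + 2 by ring] at r2
      obtain ⟨t, h'⟩ := h.uniq i (- (q (i - 1)).1) (- (q (i - 1)).2.1)
        ((q (i + 1)).1 - (q (i - 1)).2.2) (q (i + 1)).2.1 (q (i + 1)).2.2 (by
          have : (q (i + 1)).1 • A i + (q (i + 1)).2.1 • A (i + 1) + (q (i + 1)).2.2 • A (i + 2)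
              - ((q (i - 1)).1 • A (i - 2) + (q (i - 1)).2.1 • A (i - 1)
                + (q (i - 1)).2.2 • A i) = 0 := by rw [r1, r2, sub_self]
          rw [← this, sub_smul, neg_smul, neg_smul]
          abel)
      exact ⟨t, fun _ => h'⟩
    · exact ⟨0, fun h' => absurd h' hi⟩
  choose t ht using ht
  refine ⟨t, fun m => (q m).1, fun m => (q m).2.1, fun m => (q m).2.2,
    fun i => congrArg (fun z => z.1) (hqp i), fun i => congrArg (fun z => z.2.1) (hqp i),
    fun i => congrArg (fun z => z.2.2) (hqp i), fun i hi => ?_, ?_⟩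
  · obtain ⟨h0, h1, h2, h3, h4⟩ := ht i hi
    exact ⟨h0.symm, h1.symm, h2.symm, h3.symm, h4.symm⟩
  · by_contra hcon
    push Not at hcon
    obtain ⟨t0, t2⟩ := hcon
    obtain ⟨-, -, -, h3, h4⟩ := ht σ (by simp)
    obtain ⟨h0, -, -, -, -⟩ := ht (σ + 2) (by simp)
    rw [t0, zero_mul] at h3 h4
    rw [t2, zero_mul, show σ + 2 - 1 = σ + 1 by ring, neg_eq_zero] at h0
    have := hq (σ + 1) (by simp)
    rw [h0, h3, h4] at this
    simp at this
    exact hE this.symm

/-- **Q1 of MP_d88dfe_an, affirmative answer.** Let `n ≥ 4` and let `A` be a `2n`-periodic polygon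
in the projective 3-space over a field `K` (over `ℝ` this is the problem) whose faces pass
alternately through the points `P` (even faces) and `Q` (odd faces). If `B = F^{n-3}(A)` is
defined, then the odd-indexed vertices of `B` lie in one plane, and the even-indexed vertices of
`B` lie in one plane. -/
theorem result (n : ℕ) (hn : 4 ≤ n) (A : ℤ → ℙ K (Fin 4 → K))
    (hA : ∀ i, A (i + 2 * n) = A i) (P Q : ℙ K (Fin 4 → K))
    (hP : ∀ i, Even i → P.submodule ≤ faceAt A i)
    (hQ : ∀ i, Odd i → Q.submodule ≤ faceAt A i)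
    (B : ℤ → ℙ K (Fin 4 → K)) (hB : IsIterate (n - 3) A B) :
    (∃ H : Submodule K (Fin 4 → K), finrank K H = 3 ∧ ∀ i, Odd i → (B i).submodule ≤ H) ∧
    (∃ H : Submodule K (Fin 4 → K), finrank K H = 3 ∧ ∀ i, Even i → (B i).submodule ≤ H) := by
  obtain ⟨C, hC0, hC, hCk⟩ := hB
  have hex : ∀ j, ∃ a b c d e : ℤ → K, j < n - 3 →
      Step (fun i => (C j i).rep) (fun i => (C (j + 1) i).rep) a b c d e := by
    intro j
    by_cases hj : j < n - 3
    · obtain ⟨a, b, c, d, e, h⟩ := exists_step (hC j hj)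
      exact ⟨a, b, c, d, e, fun _ => h⟩
    · exact ⟨0, 0, 0, 0, 0, fun h => absurd h hj⟩
  choose a b c d e hstep using hex
  have h0 := hstep 0 (by omega)
  have hA0 : ∀ i, (C 0 (i + 2 * n)).rep = (C 0 i).rep := by
    intro i; rw [hC0, hA]
  have hB0 : ∀ i, (C (0 + 1) (i + 2 * n)).rep = (C (0 + 1) i).rep := by
    intro i
    congr 1
    apply Projectivization.submodule_injective
    have e1 := (hC 0 (by omega) i).2.2
    have e2 := (hC 0 (by omega) (i + 2 * n)).2.2
    rw [← e1, ← e2, hC0]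
    unfold lineAt planeAt
    rw [show i + 2 * (n : ℤ) - 1 = i - 1 + 2 * n by ring,
      show i + 2 * (n : ℤ) + 1 = i + 1 + 2 * n by ring,
      show i + 2 * (n : ℤ) - 2 = i - 2 + 2 * n by ring,
      show i + 2 * (n : ℤ) + 2 = i + 2 + 2 * n by ring, hA, hA, hA, hA, hA]
  have hper := fun i => step_per h0 hA0 hB0 i
  have hne : NeZero n := ⟨by omega⟩
  have hI : ∀ σ, Init n (a 0) (b 0) (c 0) (d 0) (e 0) σ := by
    intro σ
    have hface : ∀ (R : ℙ K (Fin 4 → K)) (m : ℤ), R.submodule ≤ faceAt A m →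
        ∃ s t u : K, s • (C 0 (m - 1)).rep + t • (C 0 m).rep + u • (C 0 (m + 1)).rep = R.rep := by
      intro R m hR
      have h1 : R.rep ∈ faceAt A m := hR (by
        rw [Projectivization.submodule_eq]
        exact Submodule.mem_span_singleton_self _)
      rw [faceAt, Projectivization.submodule_eq, Projectivization.submodule_eq,
        Projectivization.submodule_eq] at h1
      rw [hC0]
      exact mem_sup3 h1
    rcases Int.even_or_odd (σ + 1) with hσ | hσ
    · refine init_of_faces h0 hA0 σ P.rep P.rep_nonzero fun m hm => hface P m (hP m ?_)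
      obtain ⟨r, hr⟩ := hσ
      rw [Int.even_iff]
      omega
    · refine init_of_faces h0 hA0 σ Q.rep Q.rep_nonzero fun m hm => hface Q m (hQ m ?_)
      obtain ⟨r, hr⟩ := hσ
      rw [Int.odd_iff]
      omega
  have key := fun ρ => plane (A := fun j i => (C j i).rep) (fun j hj => hstep j hj) hn
    (by omega) hA0 (fun i => (hper i).1) (fun i => (hper i).2.1) (fun i => (hper i).2.2.1)
    (fun i => (hper i).2.2.2.1) (fun i => (hper i).2.2.2.2) hI ρ
  have fin : ∀ ρ : ℤ, ∃ H : Submodule K (Fin 4 → K), finrank K H = 3 ∧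
      ∀ i, (2 : ℤ) ∣ i - ρ → (B i).submodule ≤ H := by
    intro ρ
    obtain ⟨φ, hφ, hv⟩ := key ρ
    refine ⟨LinearMap.ker φ, ?_, fun i hi => ?_⟩
    · have := Module.Dual.finrank_ker_add_one_of_ne_zero hφ
      rw [Module.finrank_fin_fun] at this
      omega
    · rw [← hCk, Projectivization.submodule_eq, Submodule.span_singleton_le_iff_mem,
        LinearMap.mem_ker]
      exact hv i hi
  refine ⟨?_, ?_⟩
  · obtain ⟨H, hH, hv⟩ := fin 1
    refine ⟨H, hH, fun i hi => hv i ?_⟩
    rw [Int.odd_iff] at hi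
    omega
  · obtain ⟨H, hH, hv⟩ := fin 0
    refine ⟨H, hH, fun i hi => hv i ?_⟩
    rw [Int.even_iff] at hi
    omega

end Pool.Agent.Results.MP_d88dfe_an.Devron
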